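import Pool.Agent.E8helper64.GC.Stm

/-!
# Project GC: lower bounds for the Hilbert function (S_LOW2)
-/

set_option autoImplicit false

namespace Pool.Agent.E8helper52.GC

open MvPolynomial Filter Pool.Agent.E8helper64.GC

universe u

section

variable {K : Type u} [Field K] {n : ℕ}

/-- a surjection which kills the ideal gives a lower bound for the Hilbert function -/
lemma hf_ge {V : Type*} [AddCommGroup V] [Module K V] (J : Ideal (MvPolynomial (Fin n) K)) (t : ℕ)
    (f : homogeneousSubmodule (Fin n) K t →ₗ[K] V)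
    (hJ : ∀ p : homogeneousSubmodule (Fin n) K t, (p : MvPolynomial (Fin n) K) ∈ J → f p = 0)
    (hs : Function.Surjective f) : Module.finrank K V ≤ hf J t := by
  have hfin : Module.Finite K (homogeneousSubmodule (Fin n) K t) :=
    Module.Finite.iff_fg.2 (homogeneousSubmodule_fg _ _ t)
  unfold hf
  set N := (J.restrictScalars K).comap (homogeneousSubmodule (Fin n) K t).subtype with hN0
  have hN : N ≤ LinearMap.ker f := fun p hp => hJ p hp
  have hr : LinearMap.range (N.liftQ f hN) = ⊤ := by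
    rw [Submodule.range_liftQ, LinearMap.range_eq_top]
    exact hs
  have h1 := LinearMap.finrank_range_le (N.liftQ f hN)
  rwa [hr, finrank_top] at h1

/-- the linear form of a functional -/
noncomputable def lf (φ : (Fin n → K) →ₗ[K] K) : MvPolynomial (Fin n) K :=
  ∑ k, C (φ (Pi.single k 1)) * X k

lemma lf_hom (φ : (Fin n → K) →ₗ[K] K) : (lf φ).IsHomogeneous 1 := by
  unfold lf
  refine IsHomogeneous.sum _ _ _ fun k _ => ?_
  have h1 : (C (φ (Pi.single k 1)) * X k : MvPolynomial (Fin n) K).IsHomogeneous (0 + 1) :=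
    (isHomogeneous_C _ _).mul (isHomogeneous_X _ _)
  simpa using h1

lemma lf_eval (φ : (Fin n → K) →ₗ[K] K) (x : Fin n → K) : eval x (lf φ) = φ x := by
  unfold lf
  rw [map_sum]
  conv_rhs => rw [← Finset.univ_sum_single x, map_sum]
  refine Finset.sum_congr rfl fun k _ => ?_
  have h1 : (Pi.single k (x k) : Fin n → K) = x k • Pi.single k 1 := by
    rw [← Pi.single_smul, smul_eq_mul, mul_one]
  rw [h1, map_smul, smul_eq_mul, map_mul, eval_C, eval_X, mul_comm]

lemma ex_fun {x : Fin n → K} {S : Submodule K (Fin n → K)} (h : x ∉ S) :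
    ∃ φ : (Fin n → K) →ₗ[K] K, φ x = 1 ∧ ∀ y ∈ S, φ y = 0 := by
  obtain ⟨f, hf, hk⟩ := Submodule.exists_le_ker_of_notMem h
  refine ⟨(f x)⁻¹ • f, ?_, fun y hy => ?_⟩
  · rw [LinearMap.smul_apply, smul_eq_mul, inv_mul_cancel₀ hf]
  · rw [LinearMap.smul_apply, LinearMap.mem_ker.1 (hk hy), smul_zero]

end

theorem t_LOW2 : S_LOW2.{u} := by
  intro K _ _ n m X Λ Q hX hΛ h0 hQ
  have hij : ∀ i j, i ≠ j → ∃ φ : (Fin n → K) →ₗ[K] K, φ (Q i) = 1 ∧ φ (Q j) = 0 := by
    intro i j hne
    have h1 : Q i ∉ Submodule.span K {Q j} := by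
      intro h
      obtain ⟨c, hc⟩ := Submodule.mem_span_singleton.1 h
      have h2 := (LinearIndependent.pair_iff.1 (hQ i j hne)) 1 (-c) (by rw [← hc]; simp)
      exact one_ne_zero h2.1
    obtain ⟨φ, h2, h3⟩ := ex_fun h1
    exact ⟨φ, h2, h3 _ (Submodule.mem_span_singleton_self _)⟩
  have hii : ∀ i, ∃ φ : (Fin n → K) →ₗ[K] K, φ (Q i) = 1 := by
    intro i
    obtain ⟨φ, h2, -⟩ := ex_fun (S := ⊥) (x := Q i) (by simpa using h0 i)
    exact ⟨φ, h2⟩
  choose! l hl1 hl2 using hij
  choose h hh using hii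
  filter_upwards [eventually_ge_atTop m] with t ht
  let ev : homogeneousSubmodule (Fin n) K t →ₗ[K] (Fin m → K) :=
    LinearMap.pi fun i => (aeval (R := K) (Q i)).toLinearMap ∘ₗ (homogeneousSubmodule (Fin n) K t).subtype
  have hev : ∀ p i, ev p i = eval (Q i) (p : MvPolynomial (Fin n) K) := fun p i => by
    simp [ev, aeval_eq_eval]
  have h1 := hf_ge (vI X ⊔ vI (Λ : Set (Fin n → K))) t ev ?_ ?_
  · simpa using h1
  · intro p hp
    funext i
    rw [hev]
    have h2 : vI X ⊔ vI (Λ : Set (Fin n → K)) ≤ RingHom.ker (eval (Q i)) :=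
      sup_le (fun q hq => hq _ (hX i)) (fun q hq => hq _ (hΛ i))
    exact h2 hp
  · let g : Fin m → MvPolynomial (Fin n) K := fun i =>
      (lf (h i)) ^ (t - (m - 1)) * ∏ j ∈ Finset.univ.erase i, lf (l i j)
    have hg : ∀ i, (g i).IsHomogeneous t := by
      intro i
      have e1 := (lf_hom (h i)).pow (t - (m - 1))
      have e2 := IsHomogeneous.prod (Finset.univ.erase i) (fun j => lf (l i j)) (fun _ => 1)
        (fun j _ => lf_hom (l i j))
      have e3 := e1.mul e2
      have e4 : 1 * (t - (m - 1)) + ∑ j ∈ (Finset.univ.erase i : Finset (Fin m)), 1 = t := by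
        rw [Finset.sum_const, Finset.card_erase_of_mem (Finset.mem_univ i), Finset.card_univ,
          Fintype.card_fin]
        have : 0 < m := i.pos
        simp only [smul_eq_mul]
        omega
      rwa [e4] at e3
    have hg1 : ∀ i, eval (Q i) (g i) = 1 := by
      intro i
      simp only [g, map_mul, map_pow, map_prod, lf_eval]
      rw [hh, one_pow, one_mul]
      refine Finset.prod_eq_one fun j hj => hl1 i j (Finset.ne_of_mem_erase hj).symm
    have hg2 : ∀ i j, j ≠ i → eval (Q j) (g i) = 0 := by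
      intro i j hj
      simp only [g, map_mul, map_pow, map_prod, lf_eval]
      rw [Finset.prod_eq_zero (Finset.mem_erase.2 ⟨hj, Finset.mem_univ j⟩) (hl2 i j hj.symm), mul_zero]
    intro v
    refine ⟨∑ i, v i • ⟨g i, hg i⟩, ?_⟩
    funext j
    rw [hev]
    simp only [Submodule.coe_sum, Submodule.coe_smul, map_sum, smul_eval]
    rw [Finset.sum_eq_single j, hg1, mul_one]
    · intro i _ hi
      rw [hg2 i j hi.symm, mul_zero]
    · intro h'
      exact absurd (Finset.mem_univ j) h'

end Pool.Agent.E8helper52.GC
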